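import Pool.Agent.TH180.HG.Sym

/-!
The bound for the order of vanishing by a weighted sum of traces, and the tail.
-/

set_option autoImplicit false
set_option linter.all false
set_option maxHeartbeats 1000000

open Polynomial Finset

namespace Pool.Agent.TH180.HG

open Pool.Agent.TH180.RT (finAR cardAR redM redM_apply redM_surj sum_twist sg q_pos sq_pow Pd mem_Pd
  card_Pd_real sum_Irr wt sum_nat card_LT moment fejer_bound)
open Pool.Agent.H341R2.Sharp (Irr mem_Irr)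

open Classical in
/-- the power sums -/
noncomputable def psum {k : Type} [Field k] {g : ℕ} (α : k[X] → Fin (2 * g) → ℂ)
    (α' : Fin (2 * g) → ℂ) (m : ℕ) : ℂ :=
  ∑ i, α' i ^ m + ∑ᶠ P : k[X], if P.Monic ∧ Irreducible P ∧ P.natDegree ∣ m then
    (P.natDegree : ℂ) * ∑ i, α P i ^ (m / P.natDegree) else 0

/-- the local data -/
def Loc {k : Type} [Field k] {g : ℕ} (c : Fin (2 * g + 1) → k[X]) (D : ℕ) (B : Finset k[X])
    (α : k[X] → Fin (2 * g) → ℂ) (α' : Fin (2 * g) → ℂ) : Prop :=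
  ∑ P ∈ B, P.natDegree ≤ D ∧
  (∀ P : k[X], P.Monic → Irreducible P → (∀ i, ‖α P i‖ ≤ √(Nat.card k : ℝ) ^ P.natDegree) ∧
    (P ∉ B → ∑ i, α P i = (((Nat.card k : ℤ) ^ P.natDegree -
      pts (AdjoinRoot P) (fun i => AdjoinRoot.mk P (c i)) : ℤ) : ℂ))) ∧
  ∀ i, ‖α' i‖ ≤ √(Nat.card k : ℝ)

variable {k : Type} [Field k] [Fintype k] [DecidableEq k]

theorem sqrt_one : (1 : ℝ) ≤ √(Nat.card k : ℝ) := by
  rw [Real.one_le_sqrt]
  exact_mod_cast Nat.card_pos (α := k)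

theorem geom (n : ℕ) : ∑ e ∈ Icc 1 n, (Nat.card k : ℝ) ^ e ≤ 2 * (Nat.card k : ℝ) ^ n := by
  have hq : (2 : ℝ) ≤ Nat.card k := by exact_mod_cast (Finite.one_lt_card : 1 < Nat.card k)
  induction n with
  | zero => simp
  | succ n ih =>
    rw [Finset.sum_Icc_succ_top (by omega : 1 ≤ n + 1), pow_succ]
    have : (0 : ℝ) < (Nat.card k : ℝ) ^ n := pow_pos q_pos n
    nlinarith

theorem norm_sum {ι : Type} [Fintype ι] (z : ι → ℂ) {r : ℝ} (hz : ∀ i, ‖z i‖ ≤ r) (j : ℕ) :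
    ‖∑ i, z i ^ j‖ ≤ Fintype.card ι * r ^ j := by
  refine (norm_sum_le _ _).trans ?_
  refine (sum_le_sum fun i _ => ?_ : _ ≤ ∑ _i : ι, r ^ j).trans (by
    rw [sum_const, card_univ, nsmul_eq_mul])
  rw [norm_pow]
  exact pow_le_pow_left₀ (norm_nonneg _) (hz i) j

/-- the primes of smaller degree -/
theorem rest_bound {g : ℕ} {c : Fin (2 * g + 1) → k[X]} {D : ℕ} {B : Finset k[X]}
    {α : k[X] → Fin (2 * g) → ℂ} {α' : Fin (2 * g) → ℂ} (hL : Loc c D B α α') {m : ℕ}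
    (hm : 0 < m) :
    |∑ P ∈ (Irr k m).filter (fun P => P.natDegree ∣ m ∧ P.natDegree ≠ m),
      (P.natDegree : ℝ) * (∑ i, α P i ^ (m / P.natDegree)).re| ≤
      4 * g * (Nat.card k : ℝ) ^ m := by
  have hs0 : (0 : ℝ) ≤ √(Nat.card k : ℝ) := Real.sqrt_nonneg _
  have h1 : |∑ P ∈ (Irr k m).filter (fun P => P.natDegree ∣ m ∧ P.natDegree ≠ m),
      (P.natDegree : ℝ) * (∑ i, α P i ^ (m / P.natDegree)).re| ≤
      ∑ P ∈ (Irr k m).filter (fun P => P.natDegree ∣ m ∧ P.natDegree ≠ m),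
        (P.natDegree : ℝ) * (2 * g * √(Nat.card k) ^ m) := by
    refine (abs_sum_le_sum_abs _ _).trans (sum_le_sum fun P hP => ?_)
    rw [mem_filter, mem_Irr] at hP
    obtain ⟨⟨p1, p2, p3⟩, p4, p5⟩ := hP
    rw [abs_mul, Nat.abs_cast]
    apply mul_le_mul_of_nonneg_left _ (Nat.cast_nonneg _)
    have h2 := norm_sum (α P) (hL.2.1 P p1 p2).1 (m / P.natDegree)
    rw [← pow_mul, Nat.mul_div_cancel' p4, Fintype.card_fin] at h2
    push_cast at h2
    exact (Complex.abs_re_le_norm _).trans h2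
  have h2 : ∑ P ∈ (Irr k m).filter (fun P => P.natDegree ∣ m ∧ P.natDegree ≠ m),
        (P.natDegree : ℝ) * (2 * g * √(Nat.card k) ^ m) ≤
      ∑ P ∈ Irr k (m / 2), (P.natDegree : ℝ) * (2 * g * √(Nat.card k) ^ m) := by
    apply sum_le_sum_of_subset_of_nonneg
    · intro P hP
      rw [mem_filter, mem_Irr] at hP
      obtain ⟨⟨p1, p2, p3⟩, p4, p5⟩ := hP
      rw [mem_Irr]
      refine ⟨p1, p2, ?_⟩
      obtain ⟨c, hc⟩ := p4
      have hc2 : 2 ≤ c := by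
        rcases c with _ | _ | c
        · omega
        · omega
        · omega
      rw [Nat.le_div_iff_mul_le (by norm_num)]
      calc P.natDegree * 2 ≤ P.natDegree * c := Nat.mul_le_mul_left _ hc2
        _ = m := hc.symm
    · intro P _ _
      positivity
  have h3 : ∑ P ∈ Irr k (m / 2), (P.natDegree : ℝ) * (2 * g * √(Nat.card k) ^ m) ≤
      (2 * g * √(Nat.card k) ^ m) * ∑ e ∈ Icc 1 (m / 2), (Nat.card k : ℝ) ^ e := by
    rw [sum_Irr, mul_sum]
    refine sum_le_sum fun e he => ?_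
    rw [sum_congr rfl fun P hP => by rw [(mem_Pd.1 hP).2.2], sum_const, nsmul_eq_mul]
    have := card_Pd_real (k := k) e
    calc ((Pd k e).card : ℝ) * ((e : ℝ) * (2 * g * √(Nat.card k) ^ m)) =
          (2 * g * √(Nat.card k) ^ m) * ((Pd k e).card * e) := by ring
      _ ≤ _ := mul_le_mul_of_nonneg_left this (by positivity)
  have h4 : (Nat.card k : ℝ) ^ (m / 2) ≤ √(Nat.card k) ^ m := by
    rw [← sq_pow, ← pow_mul]
    exact pow_le_pow_right₀ sqrt_one (Nat.div_mul_le_self m 2)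
  calc |∑ P ∈ (Irr k m).filter (fun P => P.natDegree ∣ m ∧ P.natDegree ≠ m),
      (P.natDegree : ℝ) * (∑ i, α P i ^ (m / P.natDegree)).re| ≤
        (2 * g * √(Nat.card k) ^ m) * ∑ e ∈ Icc 1 (m / 2), (Nat.card k : ℝ) ^ e :=
        (h1.trans h2).trans h3
    _ ≤ (2 * g * √(Nat.card k) ^ m) * (2 * √(Nat.card k) ^ m) := by
        apply mul_le_mul_of_nonneg_left _ (by positivity)
        exact (geom _).trans (mul_le_mul_of_nonneg_left h4 (by norm_num))
    _ = 4 * g * (Nat.card k : ℝ) ^ m := by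
        rw [← sq_pow]
        ring

/-- the power sum as a finite sum -/
theorem psum_re {g : ℕ} (α : k[X] → Fin (2 * g) → ℂ) (α' : Fin (2 * g) → ℂ) {m : ℕ} (hm : 0 < m) :
    (psum α α' m).re = (∑ i, α' i ^ m).re +
      (∑ P ∈ Pd k m, (m : ℝ) * (∑ i, α P i).re +
      ∑ P ∈ (Irr k m).filter (fun P => P.natDegree ∣ m ∧ P.natDegree ≠ m),
      (P.natDegree : ℝ) * (∑ i, α P i ^ (m / P.natDegree)).re) := by
  classical
  unfold psum
  rw [finsum_eq_sum_of_support_subset (s := Irr k m)]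
  · rw [Complex.add_re, Complex.re_sum (Irr k m)]
    congr 1
    have h1 : ∀ P ∈ Irr k m, ((if P.Monic ∧ Irreducible P ∧ P.natDegree ∣ m then
        (P.natDegree : ℂ) * ∑ i, α P i ^ (m / P.natDegree) else 0 : ℂ)).re =
        (if P.natDegree = m then (m : ℝ) * (∑ i, α P i).re else 0) +
        (if P.natDegree ∣ m ∧ P.natDegree ≠ m then
          (P.natDegree : ℝ) * (∑ i, α P i ^ (m / P.natDegree)).re else 0) := by
      intro P hP
      rw [mem_Irr] at hP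
      obtain ⟨p1, p2, p3⟩ := hP
      have hre : ∀ z : ℂ, ((P.natDegree : ℂ) * z).re = (P.natDegree : ℝ) * z.re := by
        intro z
        have : (P.natDegree : ℂ) = ((P.natDegree : ℝ) : ℂ) := by push_cast; rfl
        rw [this, Complex.re_ofReal_mul]
      by_cases h : P.natDegree = m
      · rw [if_pos ⟨p1, p2, by rw [h]⟩, if_pos h, if_neg (by tauto), add_zero, hre, h,
          Nat.div_self hm]
        simp only [pow_one]
      · rw [if_neg h, zero_add]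
        by_cases h' : P.natDegree ∣ m
        · rw [if_pos ⟨p1, p2, h'⟩, if_pos ⟨h', h⟩, hre]
        · rw [if_neg (by tauto), if_neg (by tauto)]
          simp
    refine (sum_congr rfl fun P hP => ?_ : _ = ∑ P ∈ Irr k m,
        ((if P.natDegree = m then (m : ℝ) * (∑ i, α P i).re else 0) +
        (if P.natDegree ∣ m ∧ P.natDegree ≠ m then
          (P.natDegree : ℝ) * (∑ i, α P i ^ (m / P.natDegree)).re else 0))).trans ?_
    · rw [← h1 P hP]
      congr 1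
      split_ifs <;> rfl
    · rw [sum_add_distrib, ← sum_filter, ← sum_filter]
      rfl
  · intro P hP
    rw [Function.mem_support] at hP
    by_contra h
    apply hP
    rw [if_neg]
    rintro ⟨p1, p2, p3⟩
    apply h
    rw [mem_coe, mem_Irr]
    exact ⟨p1, p2, Nat.le_of_dvd hm p3⟩

/-- the bad primes -/
theorem bad_bound (h2 : (2 : k) ≠ 0) {g : ℕ} {c : Fin (2 * g + 1) → k[X]} {D : ℕ}
    {B : Finset k[X]} {α : k[X] → Fin (2 * g) → ℂ} {α' : Fin (2 * g) → ℂ} (hL : Loc c D B α α')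
    {m : ℕ} (hm : 0 < m) :
    ∑ P ∈ Pd k m, (m : ℝ) * (trP c P : ℝ) - (Nat.card k : ℝ) ^ m *
      (4 * g * ∑ P ∈ Pd k m, if P ∈ B then (P.natDegree : ℝ) else 0) ≤
      ∑ P ∈ Pd k m, (m : ℝ) * (∑ i, α P i).re := by
  have hq := q_pos (k := k)
  rw [mul_sum, mul_sum, ← sum_sub_distrib]
  refine sum_le_sum fun P hP => ?_
  obtain ⟨p1, p2, p3⟩ := mem_Pd.1 hP
  obtain ⟨hα, htr⟩ := hL.2.1 P p1 p2
  by_cases hB : P ∈ B
  · rw [if_pos hB, p3]
    have h3 := trP_bound h2 (n := 2 * g + 1) ⟨g, rfl⟩ p2 c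
    have h4 := norm_sum (α P) hα 1
    simp only [pow_one] at h4
    rw [Fintype.card_fin, p3] at h4
    have h5 := (abs_le.1 ((Complex.abs_re_le_norm _).trans h4)).1
    rw [p3] at h3
    have h6 := (abs_le.1 h3).2
    push_cast at h5 h6
    have h8 : √(Nat.card k : ℝ) ^ m ≤ (Nat.card k : ℝ) ^ m := by
      rw [← sq_pow]
      nlinarith [one_le_pow₀ (sqrt_one (k := k)) (n := m)]
    have hm0 : (0 : ℝ) ≤ m := Nat.cast_nonneg _
    have hg0 : (0 : ℝ) ≤ g := Nat.cast_nonneg _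
    have h9 : (trP c P : ℝ) - 4 * g * (Nat.card k : ℝ) ^ m ≤ (∑ i, α P i).re := by
      have h10 : (g : ℝ) * √(Nat.card k : ℝ) ^ m ≤ g * (Nat.card k : ℝ) ^ m :=
        mul_le_mul_of_nonneg_left h8 hg0
      have e1 : (2 * (g : ℝ) + 1 - 1) * √(Nat.card k : ℝ) ^ m = 2 * (g * √(Nat.card k : ℝ) ^ m) := by
        ring
      have e2 : (2 * (g : ℝ)) * √(Nat.card k : ℝ) ^ m = 2 * (g * √(Nat.card k : ℝ) ^ m) := by
        ring
      rw [e1] at h6
      rw [e2] at h5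
      linarith
    calc (m : ℝ) * (trP c P : ℝ) - (Nat.card k : ℝ) ^ m * (4 * g * m) =
          m * ((trP c P : ℝ) - 4 * g * (Nat.card k : ℝ) ^ m) := by ring
      _ ≤ _ := mul_le_mul_of_nonneg_left h9 hm0
  · rw [if_neg hB, htr hB]
    have e : ((((Nat.card k : ℤ) ^ P.natDegree -
        pts (AdjoinRoot P) (fun i => AdjoinRoot.mk P (c i)) : ℤ) : ℂ)).re = (trP c P : ℝ) := by
      rw [Complex.intCast_re]
      rfl
    rw [e]
    simp

open Classical in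
/-- **the bound for the order** -/
theorem det (h2 : (2 : k) ≠ 0) {g : ℕ} {c : Fin (2 * g + 1) → k[X]} {D : ℕ}
    {B : Finset k[X]} {α : k[X] → Fin (2 * g) → ℂ} {α' : Fin (2 * g) → ℂ} (hL : Loc c D B α α')
    {Y : ℕ} (hY : 0 < Y) {N : ℕ} {β : Fin N → ℂ} (hβ : ∀ i, ‖β i‖ = 1)
    (hps : ∀ m : ℕ, 0 < m → psum α α' m = -((Nat.card k : ℂ) ^ m * ∑ i, β i ^ m)) :
    ((univ.filter fun i => β i = 1).card : ℝ) ≤
      (N + 8 * g * D) / Y + 12 * g + ∑ P ∈ Irr k (Y - 1), wt k Y P * trP c P := by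
  have hY' : (0 : ℝ) < Y := by exact_mod_cast hY
  have hq := q_pos (k := k)
  have hg0 : (0 : ℝ) ≤ g := Nat.cast_nonneg _
  have h1 := fejer_bound hβ Y
  set b : ℕ → ℝ := fun m => ∑ P ∈ Pd k m, if P ∈ B then (P.natDegree : ℝ) else 0 with hb
  have hb0 : ∀ m, 0 ≤ b m := fun m => sum_nonneg fun P _ => by split_ifs <;> positivity
  have e : Icc 1 (Y - 1) = Ico 1 Y := by
    ext x
    simp only [mem_Icc, mem_Ico]
    omega
  have hbD : ∑ m ∈ Ico 1 Y, b m ≤ D := by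
    rw [← e, ← sum_Irr (Y - 1) fun P => if P ∈ B then (P.natDegree : ℝ) else 0, ← sum_filter]
    refine (sum_le_sum_of_subset_of_nonneg (t := B) ?_ fun P _ _ => Nat.cast_nonneg _).trans ?_
    · intro P hP
      exact (mem_filter.1 hP).2
    · exact_mod_cast hL.1
  have h2' : ∀ m ∈ Ico 1 Y, ((Y : ℝ) - m) * (∑ i, β i ^ m).re ≤
      (6 * g * Y + 4 * g * Y * b m) -
        ((Y : ℝ) - m) * ∑ P ∈ Pd k m, (m : ℝ) * (trP c P : ℝ) / (Nat.card k : ℝ) ^ m := by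
    intro m hm
    rw [mem_Ico] at hm
    have hm0 : 0 < m := hm.1
    have hYm : (0 : ℝ) ≤ (Y : ℝ) - m := by
      have : (m : ℝ) ≤ Y := by exact_mod_cast hm.2.le
      linarith
    have hYm' : (Y : ℝ) - m ≤ Y := by
      have : (0 : ℝ) ≤ m := Nat.cast_nonneg _
      linarith
    have hqm : (0 : ℝ) < (Nat.card k : ℝ) ^ m := pow_pos hq m
    have h3 : (∑ i, β i ^ m).re = -(psum α α' m).re / (Nat.card k : ℝ) ^ m := by
      have h4 : (psum α α' m).re = -((Nat.card k : ℝ) ^ m * (∑ i, β i ^ m).re) := by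
        rw [hps m hm0, Complex.neg_re]
        have : ((Nat.card k : ℂ)) ^ m = (((Nat.card k : ℝ) ^ m : ℝ) : ℂ) := by push_cast; rfl
        rw [this, Complex.re_ofReal_mul]
      rw [h4, neg_neg, mul_div_cancel_left₀ _ hqm.ne']
    have h5 := rest_bound hL hm0
    have h6 := bad_bound h2 hL hm0
    have h7 := norm_sum α' hL.2.2 m
    rw [Fintype.card_fin] at h7
    push_cast at h7
    have h7' := (abs_le.1 ((Complex.abs_re_le_norm _).trans h7)).1
    have h8 : √(Nat.card k : ℝ) ^ m ≤ (Nat.card k : ℝ) ^ m := by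
      rw [← sq_pow]
      nlinarith [one_le_pow₀ (sqrt_one (k := k)) (n := m)]
    have h8' : 2 * (g : ℝ) * √(Nat.card k : ℝ) ^ m ≤ 2 * g * (Nat.card k : ℝ) ^ m :=
      mul_le_mul_of_nonneg_left h8 (by positivity)
    have h9 : (∑ i, β i ^ m).re ≤ 6 * g + 4 * g * b m -
        ∑ P ∈ Pd k m, (m : ℝ) * (trP c P : ℝ) / (Nat.card k : ℝ) ^ m := by
      rw [h3, psum_re α α' hm0, ← sum_div, div_le_iff₀ hqm, sub_mul,
        div_mul_cancel₀ _ hqm.ne']
      have h10 := (abs_le.1 h5).1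
      have e3 : (6 * (g : ℝ) + 4 * g * b m) * (Nat.card k : ℝ) ^ m =
        6 * g * (Nat.card k : ℝ) ^ m + (Nat.card k : ℝ) ^ m * (4 * g * b m) := by ring
      rw [e3]
      linarith
    calc ((Y : ℝ) - m) * (∑ i, β i ^ m).re ≤ ((Y : ℝ) - m) * (6 * g + 4 * g * b m -
          ∑ P ∈ Pd k m, (m : ℝ) * (trP c P : ℝ) / (Nat.card k : ℝ) ^ m) :=
          mul_le_mul_of_nonneg_left h9 hYm
      _ = ((Y : ℝ) - m) * (6 * g + 4 * g * b m) - ((Y : ℝ) - m) *
          ∑ P ∈ Pd k m, (m : ℝ) * (trP c P : ℝ) / (Nat.card k : ℝ) ^ m := by ring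
      _ ≤ (Y : ℝ) * (6 * g + 4 * g * b m) - ((Y : ℝ) - m) *
          ∑ P ∈ Pd k m, (m : ℝ) * (trP c P : ℝ) / (Nat.card k : ℝ) ^ m := by
          have := mul_le_mul_of_nonneg_right hYm'
            (by have := hb0 m; positivity : (0 : ℝ) ≤ 6 * g + 4 * g * b m)
          linarith
      _ = _ := by ring
  have h3 := sum_le_sum h2'
  rw [sum_sub_distrib, sum_add_distrib, sum_const, Nat.card_Ico, nsmul_eq_mul, ← mul_sum] at h3
  have h4 : ∑ P ∈ Irr k (Y - 1), wt k Y P * (trP c P : ℝ) =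
      -(2 / (Y : ℝ) ^ 2 * ∑ m ∈ Ico 1 Y, ((Y : ℝ) - m) *
        ∑ P ∈ Pd k m, (m : ℝ) * (trP c P : ℝ) / (Nat.card k : ℝ) ^ m) := by
    rw [sum_Irr, mul_sum, ← sum_neg_distrib, e]
    refine sum_congr rfl fun m _ => ?_
    rw [mul_sum, mul_sum, ← sum_neg_distrib]
    refine sum_congr rfl fun P hP => ?_
    unfold wt
    rw [(mem_Pd.1 hP).2.2]
    ring
  have h5 : ((Y - 1 : ℕ) : ℝ) * (6 * g * Y) ≤ 6 * g * Y ^ 2 := by
    have : ((Y - 1 : ℕ) : ℝ) ≤ Y := by exact_mod_cast Nat.sub_le _ _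
    have h6 : ((Y - 1 : ℕ) : ℝ) * (6 * g * Y) ≤ Y * (6 * g * Y) :=
      mul_le_mul_of_nonneg_right this (by positivity)
    linarith
  have h5' : 4 * (g : ℝ) * Y * ∑ m ∈ Ico 1 Y, b m ≤ 4 * g * Y * D :=
    mul_le_mul_of_nonneg_left hbD (by positivity)
  rw [h4]
  have h6' : ((univ.filter fun i => β i = 1).card : ℝ) * Y ^ 2 ≤
      Y * N + 12 * g * Y ^ 2 + 8 * g * Y * D -
      2 * ∑ m ∈ Ico 1 Y, ((Y : ℝ) - m) *
        ∑ P ∈ Pd k m, (m : ℝ) * (trP c P : ℝ) / (Nat.card k : ℝ) ^ m := by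
    linarith
  have h7 : ((univ.filter fun i => β i = 1).card : ℝ) ≤
      (Y * N + 12 * g * Y ^ 2 + 8 * g * Y * D -
      2 * ∑ m ∈ Ico 1 Y, ((Y : ℝ) - m) *
        ∑ P ∈ Pd k m, (m : ℝ) * (trP c P : ℝ) / (Nat.card k : ℝ) ^ m) / Y ^ 2 := by
    rw [le_div_iff₀ (by positivity)]
    exact h6'
  refine h7.trans (le_of_eq ?_)
  field_simp
  ring

end Pool.Agent.TH180.HG
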