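import Pool.Agent.TH180.HG.Det

/-!
The number of curves of large order of vanishing.
-/

set_option autoImplicit false
set_option linter.all false
set_option maxHeartbeats 1000000

open Polynomial Finset

namespace Pool.Agent.TH180.HG

open Pool.Agent.TH180.RT (finAR cardAR redM redM_apply redM_surj sum_twist sg q_pos sq_pow Pd mem_Pd
  card_Pd_real sum_Irr wt sum_nat card_LT moment fejer_bound)
open Pool.Agent.H341R2.Sharp (Irr mem_Irr)

open Classical in
/-- the normalised eigenvalues of Frobenius, at least `R` of which are one -/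
def Big {k : Type} [Field k] {g : ℕ} (d R : ℕ) (c : Fin (2 * g + 1) → k[X]) : Prop :=
  ∃ (B : Finset k[X]) (α : k[X] → Fin (2 * g) → ℂ) (α' : Fin (2 * g) → ℂ) (N : ℕ) (β : Fin N → ℂ),
    Loc c (4 * g * (2 * g + 1) * d) B α α' ∧ N ≤ 4 * g * (2 * g + 1) * d ∧ (∀ i, ‖β i‖ = 1) ∧
    (∀ m : ℕ, 0 < m → psum α α' m = -((Nat.card k : ℂ) ^ m * ∑ i, β i ^ m)) ∧
    R ≤ (univ.filter fun i => β i = 1).card

theorem numeric {g R m : ℕ} (hg : 0 < g) (hm : 0 < m)
    (hR : 12 * g * (2 * g + 1) * (8 * g + 1) * m ≤ R) :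
    2 * ((2 * m).factorial : ℝ) * (Real.exp 1 * (2 * (((2 * g + 1 : ℕ) : ℝ) - 1) ^ 2) / (2 * m)) ^ m ≤
      (3 / (R : ℝ)) ^ m * ((R : ℝ) / 3) ^ (2 * m) := by
  have hm' : (1 : ℝ) ≤ m := by exact_mod_cast hm
  have hg' : (1 : ℝ) ≤ g := by exact_mod_cast hg
  have hm0 : (0 : ℝ) < m := by linarith
  have hg0 : (0 : ℝ) < g := by linarith
  have hR' : 12 * (g : ℝ) * (2 * g + 1) * (8 * g + 1) * m ≤ R := by exact_mod_cast hR
  have h312 : 312 * (g : ℝ) ^ 2 * m ≤ R := by
    refine le_trans ?_ hR'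
    apply mul_le_mul_of_nonneg_right _ hm0.le
    nlinarith [mul_nonneg hg0.le (sub_nonneg.2 hg'), mul_nonneg (mul_nonneg hg0.le hg0.le)
      (sub_nonneg.2 hg')]
  have hR0 : (0 : ℝ) < R := by
    have : 0 < 312 * (g : ℝ) ^ 2 * m := by positivity
    linarith
  have h1 : ((2 * m).factorial : ℝ) ≤ (2 * m : ℝ) ^ (2 * m) := by
    exact_mod_cast Nat.factorial_le_pow (2 * m)
  have he := Real.exp_one_lt_d9
  have he0 := Real.exp_pos 1
  have h2 : (2 : ℝ) ≤ 2 ^ m := by
    calc (2 : ℝ) = 2 ^ 1 := by norm_num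
      _ ≤ 2 ^ m := pow_le_pow_right₀ (by norm_num) hm
  have eV : 2 * (((2 * g + 1 : ℕ) : ℝ) - 1) ^ 2 = 8 * (g : ℝ) ^ 2 := by
    push_cast
    ring
  rw [eV]
  calc 2 * ((2 * m).factorial : ℝ) * (Real.exp 1 * (8 * (g : ℝ) ^ 2) / (2 * m)) ^ m ≤
        2 ^ m * (2 * m : ℝ) ^ (2 * m) * (Real.exp 1 * (8 * (g : ℝ) ^ 2) / (2 * m)) ^ m := by
        gcongr
    _ = (32 * Real.exp 1 * (g : ℝ) ^ 2 * m) ^ m := by
        rw [pow_mul, ← mul_pow, ← mul_pow]
        congr 1
        field_simp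
        ring
    _ ≤ (3 / (R : ℝ) * ((R : ℝ) / 3) ^ 2) ^ m := by
        apply pow_le_pow_left₀ (by positivity)
        have e : 3 / (R : ℝ) * ((R : ℝ) / 3) ^ 2 = R / 3 := by
          field_simp
        rw [e]
        have h3 : 0 < (g : ℝ) ^ 2 * m := by positivity
        nlinarith
    _ = _ := by rw [mul_pow, ← pow_mul]

variable {k : Type} [Field k] [Fintype k] [DecidableEq k]

/-- the degrees -/
def dg (g d : ℕ) (i : Fin (2 * g + 1)) : ℕ := 2 * (2 * g + 1 - (i : ℕ)) * d + 1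

open Classical in
/-- **the tail** -/
theorem tail (h2 : (2 : k) ≠ 0) {g : ℕ} (hg : 0 < g) (d R : ℕ) (hR : 0 < R) :
    ((univ.filter fun ω : Om k (dg g d) => Big d R (co ω)).card : ℝ) ≤
      (3 / (R : ℝ)) ^ (R / (12 * g * (2 * g + 1) * (8 * g + 1))) *
        (Fintype.card (Om k (dg g d)) : ℝ) := by
  have hq := q_pos (k := k)
  have hRr : (0 : ℝ) < R := by exact_mod_cast hR
  have hcard : ((univ.filter fun ω : Om k (dg g d) => Big d R (co ω)).card : ℝ) ≤
      (Fintype.card (Om k (dg g d)) : ℝ) := by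
    exact_mod_cast card_le_univ (univ.filter fun ω : Om k (dg g d) => Big d R (co ω))
  set M : ℕ := 12 * g * (2 * g + 1) * (8 * g + 1) with hM
  have hM0 : 0 < M := by positivity
  have hM1 : 36 * g ≤ M := by
    rw [hM]
    calc 36 * g = 12 * g * 3 * 1 := by ring
      _ ≤ 12 * g * (2 * g + 1) * (8 * g + 1) := by
        apply Nat.mul_le_mul (Nat.mul_le_mul_left _ (by omega)) (by omega)
  by_cases hsmall : R < M
  · rw [Nat.div_eq_of_lt hsmall, pow_zero, one_mul]
    exact hcard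
  push Not at hsmall
  have hR' : (36 : ℝ) * g ≤ R := by exact_mod_cast hM1.trans hsmall
  by_cases hbig : 4 * g * (2 * g + 1) * d < R
  · have h0 : (univ.filter fun ω : Om k (dg g d) => Big d R (co ω)) = ∅ := by
      rw [filter_eq_empty_iff]
      rintro ω - ⟨B, α, α', N, β, -, hN, -, -, h⟩
      have h1 : (univ.filter fun i => β i = 1).card ≤ N := by
        simpa using card_le_univ (univ.filter fun i => β i = 1)
      omega
    rw [h0]
    simp only [card_empty, Nat.cast_zero]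
    positivity
  push Not at hbig
  have hd : 0 < d := by
    rcases Nat.eq_zero_or_pos d with h | h
    · rw [h, mul_zero] at hbig
      omega
    · exact h
  set m : ℕ := R / M with hm
  have hm1 : M * m ≤ R := Nat.mul_div_le R M
  have hm0 : 0 < m := Nat.div_pos hsmall hM0
  set Y : ℕ := (M * d + R - 1) / R with hY
  have hMd : 0 < M * d := Nat.mul_pos hM0 hd
  have hY0 : 0 < Y := Nat.div_pos (by omega) hR
  have hY1 : M * d ≤ Y * R := by
    have h1 : M * d + R - 1 < (Y + 1) * R := by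
      rw [hY, mul_comm ((M * d + R - 1) / R + 1) R]
      exact Nat.lt_mul_div_succ _ hR
    have e : (Y + 1) * R = Y * R + R := by ring
    rw [e] at h1
    omega
  have hY2 : (Y - 1) * R ≤ M * d := by
    have h1 : Y * R ≤ M * d + R - 1 := Nat.div_mul_le_self _ _
    rw [Nat.sub_mul, one_mul]
    omega
  have hY3 : 2 * m * (Y - 1) ≤ 2 * d := by
    have h1 : M * (2 * m * (Y - 1)) ≤ M * (2 * d) := by
      calc M * (2 * m * (Y - 1)) = 2 * ((Y - 1) * (M * m)) := by ring
        _ ≤ 2 * ((Y - 1) * R) := by gcongr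
        _ ≤ 2 * (M * d) := by gcongr
        _ = M * (2 * d) := by ring
    exact Nat.le_of_mul_le_mul_left h1 hM0
  have hn : Odd (2 * g + 1) := ⟨g, rfl⟩
  have hV : (0 : ℝ) < 2 * (((2 * g + 1 : ℕ) : ℝ) - 1) ^ 2 := by
    have : (1 : ℝ) ≤ g := by exact_mod_cast hg
    push_cast
    have h3 : (0 : ℝ) < 2 * g + 1 - 1 := by linarith
    positivity
  have hmom := moment_tr h2 hn (Irr k (Y - 1)) (Y := Y - 1) (m := m) (D := dg g d)
    (fun P hP => mem_Irr.1 hP) hm0 (fun i => by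
      unfold dg
      have h3 : 1 ≤ 2 * g + 1 - (i : ℕ) := by have := i.2; omega
      have h4 : 2 * 1 * d ≤ 2 * (2 * g + 1 - (i : ℕ)) * d :=
        Nat.mul_le_mul_right _ (Nat.mul_le_mul_left _ h3)
      omega) (wt k Y) hV (fun c => var_bound h2 hn hY0 c)
  have hYR : (0 : ℝ) < Y := by exact_mod_cast hY0
  have hNY : ∀ N : ℕ, N ≤ 4 * g * (2 * g + 1) * d →
      ((N : ℝ) + 8 * g * ((4 * g * (2 * g + 1) * d : ℕ) : ℝ)) / Y ≤ R / 3 := by
    intro N hN
    rw [div_le_div_iff₀ hYR (by norm_num)]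
    have h1 : (N + 8 * g * (4 * g * (2 * g + 1) * d)) * 3 ≤ R * Y := by
      calc (N + 8 * g * (4 * g * (2 * g + 1) * d)) * 3 ≤
            (4 * g * (2 * g + 1) * d + 8 * g * (4 * g * (2 * g + 1) * d)) * 3 := by gcongr
        _ = M * d := by
          rw [hM]
          ring
        _ ≤ Y * R := hY1
        _ = R * Y := mul_comm _ _
    exact_mod_cast h1
  have hmark : ((univ.filter fun ω : Om k (dg g d) => Big d R (co ω)).card : ℝ) *
      ((R : ℝ) / 3) ^ (2 * m) ≤
      ∑ ω : Om k (dg g d), (∑ P ∈ Irr k (Y - 1), wt k Y P * trP (co ω) P) ^ (2 * m) := by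
    rw [← nsmul_eq_mul, ← sum_const]
    refine (sum_le_sum fun ω hω => ?_).trans (sum_le_sum_of_subset_of_nonneg
      (filter_subset _ _) fun ω _ _ => ?_)
    · rw [mem_filter] at hω
      obtain ⟨B, α, α', N, β, hL, hN, hβ, hps, hc⟩ := hω.2
      have h1 := det h2 hL hY0 hβ hps
      have h3 := hNY N hN
      have h4 : (R : ℝ) ≤ ((univ.filter fun i => β i = 1).card : ℝ) := by exact_mod_cast hc
      apply pow_le_pow_left₀ (by positivity)
      linarith
    · rw [pow_mul]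
      positivity
  have hnum := numeric hg hm0 hm1
  have h1 := hmark.trans hmom
  have h2' : ((univ.filter fun ω : Om k (dg g d) => Big d R (co ω)).card : ℝ) *
      ((R : ℝ) / 3) ^ (2 * m) ≤
      ((3 / (R : ℝ)) ^ m * (Fintype.card (Om k (dg g d)) : ℝ)) * ((R : ℝ) / 3) ^ (2 * m) := by
    refine h1.trans ?_
    calc (Fintype.card (Om k (dg g d)) : ℝ) * (2 * ((2 * m).factorial : ℝ) *
          (Real.exp 1 * (2 * (((2 * g + 1 : ℕ) : ℝ) - 1) ^ 2) / (2 * m)) ^ m) ≤
          (Fintype.card (Om k (dg g d)) : ℝ) * ((3 / (R : ℝ)) ^ m * ((R : ℝ) / 3) ^ (2 * m)) :=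
          mul_le_mul_of_nonneg_left hnum (by positivity)
      _ = _ := by ring
  exact le_of_mul_le_mul_right h2' (by positivity)

end Pool.Agent.TH180.HG
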