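import Pool.Agent.H341R2.WeilSharp
import Pool.Agent.TH180.RT.Wt

/-!
Traces of Frobenius of the curves `y ^ 2 = x ^ n + ...` over finite fields, `n` odd.
-/

set_option autoImplicit false
set_option linter.all false
set_option maxHeartbeats 1000000

open Polynomial Finset

namespace Pool.Agent.TH180.HG

open Pool.Agent.TH180.RT (finAR cardAR redM redM_apply redM_surj sum_twist sg q_pos sq_pow Pd mem_Pd
  card_Pd_real sum_Irr wt sum_nat card_LT moment)
open Pool.Agent.H341R2.Sharp (Irr mem_Irr)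

/-- number of affine points -/
noncomputable def pts (R : Type) [CommRing R] {n : ℕ} (c : Fin n → R) : ℕ :=
  Nat.card {z : R × R // z.2 ^ 2 = z.1 ^ n + ∑ i : Fin n, c i * z.1 ^ (i : ℕ)}

section field

variable {F : Type} [Field F] [Fintype F] [DecidableEq F]

theorem rc2 (h2 : (2 : F) ≠ 0) : ringChar F ≠ 2 := by
  intro h
  apply h2
  have := ringChar.Nat.cast_ringChar (R := F)
  rw [h] at this
  exact_mod_cast this

/-- the polynomial -/
noncomputable def pol {n : ℕ} (c : Fin n → F) : F[X] := X ^ n + ∑ i : Fin n, C (c i) * X ^ (i : ℕ)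

theorem pol_eval {n : ℕ} (c : Fin n → F) (x : F) :
    (pol c).eval x = x ^ n + ∑ i : Fin n, c i * x ^ (i : ℕ) := by
  unfold pol
  simp [eval_finset_sum]

theorem pol_low {n : ℕ} (c : Fin n → F) :
    (∑ i : Fin n, C (c i) * X ^ (i : ℕ) : F[X]).degree < n := by
  refine (degree_sum_le _ _).trans_lt ?_
  rw [Finset.sup_lt_iff (by
    exact WithBot.bot_lt_coe n)]
  intro i _
  refine (degree_C_mul_X_pow_le _ _).trans_lt ?_
  exact_mod_cast i.2

theorem pol_monic {n : ℕ} (c : Fin n → F) : (pol c).Monic := monic_X_pow_add (pol_low c)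

theorem pol_natDegree {n : ℕ} (c : Fin n → F) : (pol c).natDegree = n := by
  unfold pol
  rw [natDegree_add_eq_left_of_degree_lt]
  · exact natDegree_X_pow n
  · rw [degree_X_pow]
    exact pol_low c

theorem pts_eq (h2 : (2 : F) ≠ 0) {n : ℕ} (c : Fin n → F) :
    (pts F c : ℤ) = Fintype.card F + ∑ x : F, quadraticChar F ((pol c).eval x) := by
  have h1 : pts F c = ∑ x : F, Fintype.card {y : F // y ^ 2 = (pol c).eval x} := by
    unfold pts
    rw [Nat.card_eq_fintype_card, ← Fintype.card_sigma]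
    refine Fintype.card_congr
      { toFun := fun z => ⟨z.1.1, ⟨z.1.2, by rw [pol_eval]; exact z.2⟩⟩
        invFun := fun z => ⟨(z.1, z.2.1), z.2.2.trans (pol_eval c z.1)⟩
        left_inv := fun z => rfl
        right_inv := fun z => rfl }
  rw [h1]
  push_cast
  have h3 : ∀ x : F, (Fintype.card {y : F // y ^ 2 = (pol c).eval x} : ℤ) =
      quadraticChar F ((pol c).eval x) + 1 := by
    intro x
    rw [← quadraticChar_card_sqrts (rc2 h2)]
    congr 1
    rw [Set.toFinset_card]
    exact Fintype.card_congr (Equiv.refl _)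
  rw [sum_congr rfl fun x _ => h3 x, sum_add_distrib, sum_const, card_univ]
  simp
  ring

/-- the trace -/
noncomputable def tr {n : ℕ} (c : Fin n → F) : ℤ := (Fintype.card F : ℤ) - pts F c

theorem tr_eq (h2 : (2 : F) ≠ 0) {n : ℕ} (c : Fin n → F) :
    tr c = - ∑ x : F, quadraticChar F ((pol c).eval x) := by
  unfold tr
  rw [pts_eq h2]
  ring

theorem tr_twist (h2 : (2 : F) ≠ 0) {n : ℕ} (hn : Odd n) {d : F} (hd : d ≠ 0) (c : Fin n → F) :
    tr (fun i => d ^ (n - (i : ℕ)) * c i) = quadraticChar F d * tr c := by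
  rw [tr_eq h2, tr_eq h2]
  have h1 : ∑ x : F, quadraticChar F ((pol fun i : Fin n => d ^ (n - (i : ℕ)) * c i).eval x) =
      ∑ x : F, quadraticChar F
        ((pol fun i : Fin n => d ^ (n - (i : ℕ)) * c i).eval (d * x)) :=
    (Equiv.sum_comp (Equiv.mulLeft₀ d hd) fun x =>
      quadraticChar F ((pol fun i : Fin n => d ^ (n - (i : ℕ)) * c i).eval x)).symm
  have h3 : ∀ x : F, (pol fun i : Fin n => d ^ (n - (i : ℕ)) * c i).eval (d * x) =
      d ^ n * (pol c).eval x := by
    intro x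
    rw [pol_eval, pol_eval, mul_pow, mul_add, mul_sum]
    congr 1
    refine sum_congr rfl fun i _ => ?_
    have e : d ^ n = d ^ (n - (i : ℕ)) * d ^ (i : ℕ) := by
      rw [← pow_add, Nat.sub_add_cancel i.2.le]
    rw [e, mul_pow]
    ring
  have h4 : quadraticChar F (d ^ n) = quadraticChar F d := by
    obtain ⟨m, rfl⟩ := hn
    rw [pow_add, pow_mul, pow_one, map_mul, map_pow, quadraticChar_sq_one' hd, one_pow, one_mul]
  rw [h1, sum_congr rfl fun x _ => by rw [h3 x, map_mul, h4], ← mul_sum]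
  ring

theorem tr_bound (h2 : (2 : F) ≠ 0) {n : ℕ} (hn : Odd n) (c : Fin n → F) :
    |(tr c : ℝ)| ≤ ((n : ℝ) - 1) * √(Fintype.card F) := by
  rw [tr_eq h2]
  push_cast
  rw [abs_neg]
  have h := Pool.Agent.H341R2.Sharp.weil_sharp (rc2 h2) (pol c) (by
    rw [pol_natDegree]
    exact hn.pos) (by
    intro a h he
    have h1 := congrArg natDegree he
    rw [pol_natDegree] at h1
    have ha : a ≠ 0 := by
      rintro rfl
      rw [C_0, zero_mul] at he
      exact (pol_monic c).ne_zero he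
    rw [natDegree_C_mul ha, natDegree_pow] at h1
    rw [h1] at hn
    exact (Nat.not_odd_iff_even.2 (even_two_mul _)) hn)
  rw [pol_natDegree] at h
  exact h

end field

section tw

variable {k : Type} [Field k] [Fintype k] [DecidableEq k]

/-- the trace at a prime -/
noncomputable def trP {n : ℕ} (c : Fin n → k[X]) (P : k[X]) : ℤ :=
  (Nat.card k : ℤ) ^ P.natDegree - pts (AdjoinRoot P) (fun i => AdjoinRoot.mk P (c i))

theorem two_AR (h2 : (2 : k) ≠ 0) {P : k[X]} (hP : Irreducible P) : (2 : AdjoinRoot P) ≠ 0 := by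
  have : Fact (Irreducible P) := ⟨hP⟩
  have h : (2 : AdjoinRoot P) = algebraMap k (AdjoinRoot P) 2 := by rw [map_ofNat]
  rw [h]
  exact (_root_.map_ne_zero _).2 h2

open Classical in
theorem trP_eq {n : ℕ} {P : k[X]} (hP : Irreducible P) [Fact (Irreducible P)]
    [Fintype (AdjoinRoot P)] (c : Fin n → k[X]) : trP c P = tr fun i => AdjoinRoot.mk P (c i) := by
  unfold trP tr
  rw [← Nat.card_eq_fintype_card, cardAR hP.ne_zero]
  push_cast
  rfl

theorem trP_bound (h2 : (2 : k) ≠ 0) {n : ℕ} (hn : Odd n) {P : k[X]} (hP : Irreducible P)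
    (c : Fin n → k[X]) : |(trP c P : ℝ)| ≤ ((n : ℝ) - 1) * √(Nat.card k) ^ P.natDegree := by
  classical
  have : Fact (Irreducible P) := ⟨hP⟩
  have := finAR hP.ne_zero
  let _ : Fintype (AdjoinRoot P) := Fintype.ofFinite _
  rw [trP_eq hP]
  have h := tr_bound (two_AR h2 hP) hn fun i => AdjoinRoot.mk P (c i)
  have e : √(Fintype.card (AdjoinRoot P) : ℝ) = √(Nat.card k) ^ P.natDegree := by
    rw [← Nat.card_eq_fintype_card, cardAR hP.ne_zero]
    push_cast
    rw [Real.sqrt_eq_iff_mul_self_eq (by positivity) (by positivity), ← mul_pow,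
      Real.mul_self_sqrt (by positivity)]
  rw [e] at h
  exact h

/-- the trace depends on the classes modulo `P` -/
theorem trP_congr {n : ℕ} {P : k[X]} {c c' : Fin n → k[X]} (h : ∀ i, P ∣ c i - c' i) :
    trP c P = trP c' P := by
  unfold trP
  have : (fun i => AdjoinRoot.mk P (c i)) = fun i => AdjoinRoot.mk P (c' i) :=
    funext fun i => AdjoinRoot.mk_eq_mk.2 (h i)
  rw [this]

/-- the character -/
noncomputable def chi (l P : k[X]) : ℤ := by
  classical
  exact if h : Irreducible P then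
    (have : Fact (Irreducible P) := ⟨h⟩
     have := finAR h.ne_zero
     letI : Fintype (AdjoinRoot P) := Fintype.ofFinite _
     quadraticChar (AdjoinRoot P) (AdjoinRoot.mk P l)) else 0

theorem trP_twist (h2 : (2 : k) ≠ 0) {n : ℕ} (hn : Odd n) {P : k[X]} (hP : Irreducible P)
    {l : k[X]} (hl : ¬ P ∣ l) (c : Fin n → k[X]) :
    trP (fun i => l ^ (n - (i : ℕ)) * c i) P = chi l P * trP c P := by
  classical
  unfold chi
  rw [dif_pos hP]
  have : Fact (Irreducible P) := ⟨hP⟩
  have := finAR hP.ne_zero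
  let _ : Fintype (AdjoinRoot P) := Fintype.ofFinite _
  rw [trP_eq hP, trP_eq hP, ← tr_twist (two_AR h2 hP) hn (by
      rw [Ne, AdjoinRoot.mk_eq_zero]
      exact hl)]
  simp only [map_mul, map_pow]

/-- there is a class with given character -/
theorem exists_chi (h2 : (2 : k) ≠ 0) {P : k[X]} (hP : Irreducible P) (b : Bool) :
    ∃ l : k[X], ¬ P ∣ l ∧ ∀ l' : k[X], P ∣ l' - l → chi l' P = if b then 1 else -1 := by
  classical
  have : Fact (Irreducible P) := ⟨hP⟩
  have := finAR hP.ne_zero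
  let _ : Fintype (AdjoinRoot P) := Fintype.ofFinite _
  have hc : ∃ c : AdjoinRoot P, c ≠ 0 ∧ quadraticChar (AdjoinRoot P) c = if b then 1 else -1 := by
    cases b with
    | true => exact ⟨1, one_ne_zero, by simp⟩
    | false =>
      obtain ⟨c, hc⟩ := quadraticChar_exists_neg_one (rc2 (two_AR h2 hP))
      refine ⟨c, ?_, by simpa using hc⟩
      rintro rfl
      simp at hc
  obtain ⟨c, hc0, hc⟩ := hc
  obtain ⟨l, rfl⟩ := AdjoinRoot.mk_surjective c
  refine ⟨l, ?_, fun l' hl' => ?_⟩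
  · rw [← AdjoinRoot.mk_eq_zero]
    exact hc0
  · unfold chi
    rw [dif_pos hP, AdjoinRoot.mk_eq_mk.2 hl']
    exact hc

/-- the Chinese remainder theorem -/
theorem exists_l (h2 : (2 : k) ≠ 0) (s : Finset k[X])
    (hs : ∀ P ∈ s, P.Monic ∧ Irreducible P) (ε : k[X] → Bool) :
    ∃ l : k[X], ∀ P ∈ s, ¬ P ∣ l ∧ chi l P = if ε P then 1 else -1 := by
  classical
  have h1 : ∀ P : s, ∃ l : k[X], ¬ P.1 ∣ l ∧ ∀ l' : k[X], P.1 ∣ l' - l →
      chi l' P.1 = if ε P.1 then 1 else -1 := fun P => exists_chi h2 (hs _ P.2).2 _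
  choose f hf using h1
  obtain ⟨l, hl⟩ := IsDedekindDomain.exists_forall_sub_mem_ideal (s := s)
    (fun P : k[X] => Ideal.span {P}) (fun _ => 1)
    (fun P hP => by
      rw [Ideal.prime_iff_isPrime (by
        rw [Ne, Ideal.span_singleton_eq_bot]
        exact (hs P hP).2.ne_zero)]
      exact (Ideal.span_singleton_prime (hs P hP).2.ne_zero).2 (hs P hP).2.prime)
    (fun P hP Q hQ hne h => by
      apply hne
      rw [Ideal.span_singleton_eq_span_singleton] at h
      exact eq_of_monic_of_associated (hs P hP).1 (hs Q hQ).1 h) f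
  refine ⟨l, fun P hP => ?_⟩
  have h2 := hl P hP
  rw [pow_one, Ideal.mem_span_singleton] at h2
  refine ⟨fun h => (hf ⟨P, hP⟩).1 ?_, (hf ⟨P, hP⟩).2 l h2⟩
  have : f ⟨P, hP⟩ = l - (l - f ⟨P, hP⟩) := by ring
  rw [this]
  exact dvd_sub h h2

end tw

end Pool.Agent.TH180.HG
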