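import Pool.Agent.TH180.HG.Loc

/-!
The moments of weighted sums of traces over all curves `y ^ 2 = x ^ n + ...` with coefficients of
bounded degree.
-/

set_option autoImplicit false
set_option linter.all false
set_option maxHeartbeats 1000000

open Polynomial Finset

namespace Pool.Agent.TH180.HG

open Pool.Agent.TH180.RT (finAR cardAR redM redM_apply redM_surj sum_twist sg q_pos sq_pow Pd mem_Pd
  card_Pd_real sum_Irr wt sum_nat card_LT moment)
open Pool.Agent.H341R2.Sharp (Irr mem_Irr)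

variable {k : Type} [Field k] [Fintype k] [DecidableEq k]

/-- the tuples of polynomials -/
abbrev Om (k : Type) [Field k] {n : ℕ} (D : Fin n → ℕ) : Type := ∀ i : Fin n, degreeLT k (D i)

noncomputable instance fintypeOm {n : ℕ} (D : Fin n → ℕ) : Fintype (Om k D) := by
  classical
  exact Pi.instFintype

/-- the coefficients -/
def co {n : ℕ} {D : Fin n → ℕ} (ω : Om k D) : Fin n → k[X] := fun i => (ω i).1

theorem card_Om {n : ℕ} (D : Fin n → ℕ) :
    (Fintype.card (Om k D) : ℝ) = (Nat.card k : ℝ) ^ (∑ i, D i) := by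
  classical
  have h : Fintype.card (Om k D) = ∏ i, Fintype.card (degreeLT k (D i)) := by
    rw [← Fintype.card_pi]
  rw [h, prod_congr rfl fun i _ => card_LT (D i), prod_pow_eq_pow_sum, Nat.card_eq_fintype_card]
  push_cast
  rfl

theorem sym_class {M : k[X]} (hM : M.Monic) {n : ℕ} {D : Fin n → ℕ} (hD : ∀ i, M.natDegree ≤ D i)
    {l : k[X]} (hl : IsCoprime l M) (F : (Fin n → k[X]) → ℝ)
    (hF : ∀ c c' : Fin n → k[X], (∀ i, M ∣ c i - c' i) → F c = F c') :
    ∑ ω : Om k D, F (fun i => l ^ (n - (i : ℕ)) * co ω i) = ∑ ω : Om k D, F (co ω) := by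
  classical
  have hfin : Finite (AdjoinRoot M) := finAR hM.ne_zero
  let _ : Fintype (AdjoinRoot M) := Fintype.ofFinite _
  have hu : IsUnit (AdjoinRoot.mk M l) := by
    obtain ⟨a, b, hab⟩ := hl
    refine IsUnit.of_mul_eq_one (AdjoinRoot.mk M a) ?_
    rw [← map_mul, ← map_one (AdjoinRoot.mk M), AdjoinRoot.mk_eq_mk]
    exact ⟨-b, by linear_combination hab⟩
  obtain ⟨u, hu⟩ := hu
  set rep : AdjoinRoot M → k[X] := Function.surjInv AdjoinRoot.mk_surjective with hrep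
  have hr : ∀ c, AdjoinRoot.mk M (rep c) = c := Function.surjInv_eq _
  let φ : Om k D →+ (Fin n → AdjoinRoot M) :=
    { toFun := fun ω i => redM M (D i) (ω i)
      map_zero' := by
        funext i
        exact map_zero _
      map_add' := fun x y => by
        funext i
        exact map_add _ _ _ }
  have hφ : Function.Surjective φ := by
    intro a
    choose x hx using fun i => redM_surj hM (hD i) (a i)
    exact ⟨x, funext hx⟩
  let g : (Fin n → AdjoinRoot M) → ℝ := fun c => F fun i => rep (c i)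
  let e : (Fin n → AdjoinRoot M) ≃ (Fin n → AdjoinRoot M) :=
    Equiv.piCongrRight fun i => Units.mulLeft (u ^ (n - (i : ℕ)))
  have key := sum_twist φ hφ g e
  have e1 : ∀ ω : Om k D, g (e (φ ω)) = F (fun i => l ^ (n - (i : ℕ)) * co ω i) := by
    intro ω
    show F (fun i => rep (((u ^ (n - (i : ℕ)) : (AdjoinRoot M)ˣ) : AdjoinRoot M) *
      AdjoinRoot.mk M (co ω i))) = _
    apply hF
    intro i
    rw [← AdjoinRoot.mk_eq_mk, hr, map_mul, map_pow, ← hu]
    push_cast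
    rfl
  have e2 : ∀ ω : Om k D, g (φ ω) = F (co ω) := by
    intro ω
    show F (fun i => rep (AdjoinRoot.mk M (co ω i))) = _
    apply hF
    intro i
    rw [← AdjoinRoot.mk_eq_mk, hr]
  rw [sum_congr rfl fun ω _ => e1 ω, sum_congr rfl fun ω _ => e2 ω] at key
  exact key

/-- the symmetry of the moments -/
theorem sym_main (h2 : (2 : k) ≠ 0) {n : ℕ} (hn : Odd n) (S : Finset k[X]) {Y m : ℕ} {D : Fin n → ℕ}
    (hS : ∀ P ∈ S, P.Monic ∧ Irreducible P ∧ P.natDegree ≤ Y) (hD : ∀ i, m * Y ≤ D i)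
    (w : k[X] → ℝ) (ε : S → Bool) :
    ∑ ω : Om k D, (∑ P : S, sg (ε P) * (w P * trP (co ω) P)) ^ m =
      ∑ ω : Om k D, (∑ P : S, w P * trP (co ω) P.1) ^ m := by
  classical
  simp_rw [Fintype.sum_pow]
  rw [sum_comm, sum_comm (s := (univ : Finset (Om k D)))]
  refine sum_congr rfl fun p _ => ?_
  set M : k[X] := ∏ i, (p i).1 with hM
  have hmon : M.Monic := monic_prod_of_monic _ _ fun i _ => (hS _ (p i).2).1
  have hdeg : M.natDegree ≤ m * Y := by
    rw [hM, natDegree_prod_of_monic _ _ fun i _ => (hS _ (p i).2).1]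
    calc ∑ i, ((p i).1).natDegree ≤ ∑ i : Fin m, Y := sum_le_sum fun i _ => (hS _ (p i).2).2.2
      _ = m * Y := by simp
  obtain ⟨l, hl⟩ := exists_l h2 S (fun P hP => ⟨(hS P hP).1, (hS P hP).2.1⟩)
    (fun P => if h : P ∈ S then ε ⟨P, h⟩ else true)
  have hcop : IsCoprime l M := by
    rw [hM]
    refine IsCoprime.prod_right fun i _ => ?_
    exact ((hS _ (p i).2).2.1.coprime_iff_not_dvd.2 (hl _ (p i).2).1).symm
  have key := sym_class hmon (D := D) (fun i => hdeg.trans (hD i)) hcop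
    (fun c => ∏ i, w (p i) * trP c (p i).1) (by
      intro c c' hc
      refine prod_congr rfl fun i _ => ?_
      have hd : (p i).1 ∣ M := dvd_prod_of_mem _ (mem_univ i)
      rw [trP_congr fun j => hd.trans (hc j)])
  rw [← key]
  refine sum_congr rfl fun ω _ => prod_congr rfl fun i _ => ?_
  rw [trP_twist h2 hn (hS _ (p i).2).2.1 (hl _ (p i).2).1]
  have h3 := (hl _ (p i).2).2
  rw [dif_pos (p i).2] at h3
  rw [h3]
  unfold sg
  cases ε (p i) <;> simp

/-- the moment bound for weighted sums of traces -/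
theorem moment_tr (h2 : (2 : k) ≠ 0) {n : ℕ} (hn : Odd n) (S : Finset k[X]) {Y m : ℕ}
    {D : Fin n → ℕ} (hS : ∀ P ∈ S, P.Monic ∧ Irreducible P ∧ P.natDegree ≤ Y) (hm : 0 < m)
    (hD : ∀ i, 2 * m * Y ≤ D i) (w : k[X] → ℝ) {V : ℝ} (hV : 0 < V)
    (hw : ∀ c : Fin n → k[X], ∑ P ∈ S, (w P * trP c P) ^ 2 ≤ V) :
    ∑ ω : Om k D, (∑ P ∈ S, w P * trP (co ω) P) ^ (2 * m) ≤
      Fintype.card (Om k D) *
        (2 * (2 * m).factorial * (Real.exp 1 * V / (2 * m)) ^ m) := by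
  classical
  have key := moment (Ω := Om k D) (ι := S) (fun P ω => w P * trP (co ω) P.1) hV
    (fun ω => by
      rw [sum_coe_sort S fun P => (w P * (trP (co ω) P : ℝ)) ^ 2]
      exact hw _) hm (fun ε => sym_main h2 hn S hS hD w ε)
  refine le_trans (le_of_eq ?_) key
  refine sum_congr rfl fun ω _ => ?_
  rw [sum_coe_sort S fun P => w P * (trP (co ω) P : ℝ)]

/-- the variance -/
theorem var_bound (h2 : (2 : k) ≠ 0) {n : ℕ} (hn : Odd n) {Y : ℕ} (hY : 0 < Y)
    (c : Fin n → k[X]) :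
    ∑ P ∈ Irr k (Y - 1), (wt k Y P * trP c P) ^ 2 ≤ 2 * ((n : ℝ) - 1) ^ 2 := by
  have hY' : (0 : ℝ) < Y := by exact_mod_cast hY
  have hq := q_pos (k := k)
  have hn1 : (0 : ℝ) ≤ (n : ℝ) - 1 := by
    have : (1 : ℝ) ≤ n := by exact_mod_cast hn.pos
    linarith
  rw [sum_Irr]
  have h1 : ∀ m ∈ Icc 1 (Y - 1), ∑ P ∈ Pd k m, (wt k Y P * trP c P) ^ 2 ≤
      4 * ((n : ℝ) - 1) ^ 2 / (Y : ℝ) ^ 2 * m := by
    intro m hm
    rw [mem_Icc] at hm
    have hm0 : (0 : ℝ) < m := by exact_mod_cast hm.1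
    have h2 : ∀ P ∈ Pd k m, (wt k Y P * trP c P) ^ 2 ≤
        4 * ((n : ℝ) - 1) ^ 2 / (Y : ℝ) ^ 2 * m ^ 2 / (Nat.card k : ℝ) ^ m := by
      intro P hP
      obtain ⟨p1, p2, p3⟩ := mem_Pd.1 hP
      have h3 := trP_bound h2 hn p2 c
      rw [p3] at h3
      have h4 : |wt k Y P| ≤ 2 / (Y : ℝ) * m / (Nat.card k : ℝ) ^ m := by
        unfold wt
        rw [p3, abs_neg, abs_of_nonneg]
        · apply div_le_div_of_nonneg_right _ (by positivity)
          apply mul_le_mul_of_nonneg_right _ hm0.le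
          have : ((Y : ℝ) - m) ≤ Y := by linarith
          calc 2 / (Y : ℝ) ^ 2 * ((Y : ℝ) - m) ≤ 2 / (Y : ℝ) ^ 2 * Y :=
                mul_le_mul_of_nonneg_left this (by positivity)
            _ = 2 / (Y : ℝ) := by field_simp
        · have : (0 : ℝ) ≤ (Y : ℝ) - m := by
            have : (m : ℝ) ≤ Y := by exact_mod_cast (by omega : m ≤ Y)
            linarith
          positivity
      have h5 : |wt k Y P * trP c P| ≤
          2 / (Y : ℝ) * m / (Nat.card k : ℝ) ^ m * (((n : ℝ) - 1) * √(Nat.card k) ^ m) := by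
        rw [abs_mul]
        exact mul_le_mul h4 h3 (abs_nonneg _) (by positivity)
      calc (wt k Y P * trP c P) ^ 2 = |wt k Y P * trP c P| ^ 2 := (sq_abs _).symm
        _ ≤ (2 / (Y : ℝ) * m / (Nat.card k : ℝ) ^ m * (((n : ℝ) - 1) * √(Nat.card k) ^ m)) ^ 2 :=
            pow_le_pow_left₀ (abs_nonneg _) h5 2
        _ = 4 * ((n : ℝ) - 1) ^ 2 / (Y : ℝ) ^ 2 * m ^ 2 / (Nat.card k : ℝ) ^ m := by
            have := sq_pow (k := k) m
            rw [mul_pow, mul_pow ((n : ℝ) - 1), this]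
            field_simp
            ring
    refine (sum_le_sum h2).trans ?_
    rw [sum_const, nsmul_eq_mul]
    have h7 := card_Pd_real (k := k) m
    calc ((Pd k m).card : ℝ) *
          (4 * ((n : ℝ) - 1) ^ 2 / (Y : ℝ) ^ 2 * m ^ 2 / (Nat.card k : ℝ) ^ m) =
          ((Pd k m).card * m) *
            (4 * ((n : ℝ) - 1) ^ 2 / (Y : ℝ) ^ 2 * m / (Nat.card k : ℝ) ^ m) := by ring
      _ ≤ (Nat.card k : ℝ) ^ m *
            (4 * ((n : ℝ) - 1) ^ 2 / (Y : ℝ) ^ 2 * m / (Nat.card k : ℝ) ^ m) :=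
          mul_le_mul_of_nonneg_right h7 (by positivity)
      _ = 4 * ((n : ℝ) - 1) ^ 2 / (Y : ℝ) ^ 2 * m := by field_simp
  refine (sum_le_sum h1).trans ?_
  rw [← mul_sum]
  calc 4 * ((n : ℝ) - 1) ^ 2 / (Y : ℝ) ^ 2 * ∑ m ∈ Icc 1 (Y - 1), (m : ℝ) ≤
        4 * ((n : ℝ) - 1) ^ 2 / (Y : ℝ) ^ 2 * (Y ^ 2 / 2) :=
        mul_le_mul_of_nonneg_left (sum_nat Y) (by positivity)
    _ = 2 * ((n : ℝ) - 1) ^ 2 := by
      field_simp
      ring

end Pool.Agent.TH180.HG
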